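import Pool.Agent.Lib.MP_4c145a_lc.Final

/-!
# Erasing rules increase the power of left forbidding E0L grammars

There is an LF-E0L grammar `G` such that no LF-EP0L grammar generates `L(G) \ {ε}`; that is,
the families LF-E0L and LF-EP0L are different, even up to the empty word.
-/

namespace Pool.Agent.Results.MP_4c145a_lc.ErasingMatters

open Pool.Agent.MP_4c145a_lc

theorem result : ∃ G : Grammar ℕ, ∀ G' : Grammar ℕ, G'.Propagating →
    G'.language ≠ G.language \ {[]} :=
  main

end Pool.Agent.Results.MP_4c145a_lc.ErasingMatters
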